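import Mathlib
import Pool.Agent.H39.RC4

set_option autoImplicit false

namespace Pool.Agent.Results.MP_a8ba19_gt.RectCex

theorem result : ∃ (G : Type) (τ : TopologicalSpace G),
    T1Space G ∧ RegularSpace G ∧
    (∃ (φ : (G × G) ≃ₜ (G × G)) (e : G),
      (∀ p : G × G, (φ p).1 = p.1) ∧ ∀ x : G, φ (x, x) = (x, e)) ∧
    (∀ x : G, ∃ U : ℕ → Set G, (∀ n, IsOpen (U n)) ∧ ⋂ n, U n = {x}) ∧
    (∀ (M : Type) [MetricSpace M] (f : G → M), Continuous f → ¬ Function.Injective f) ∧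
    (¬ ∃ t : TopologicalSpace G, @TopologicalSpace.MetrizableSpace G t ∧
      ∀ U : Set G, @IsOpen G t U → @IsOpen G τ U) ∧
    ¬ CompletelyRegularSpace G := by
  refine ⟨H39.RC.G, inferInstance, inferInstance, inferInstance, H39.RC.rect, fun x => ?_,
    fun M _ f hf => H39.RC.not_inj hf, fun ⟨t, h1, h2⟩ => ?_, H39.RC.not_cr⟩
  · obtain ⟨U, h1, h2⟩ := (H39.RC.gdelta x).eq_iInter_nat
    exact ⟨U, h1, h2.symm⟩
  · exact @H39.RC.not_inj H39.RC.G t h1 id (@continuous_def _ _ _ t id |>.2 h2) Function.injective_id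

end Pool.Agent.Results.MP_a8ba19_gt.RectCex
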